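import Pool.Agent.Helper37.SY.Defs
import Pool.Agent.Helper59.Pack.Chain

/-!
# The recorded upper bound `δ_T(K) ≤ Vol K / Vol DK`
-/

set_option autoImplicit false
namespace Pool.Agent.Helper84.SY
open MeasureTheory Metric
open Pool.Agent.Helper59.Pack Pool.Agent.Helper69.MD
open scoped ENNReal Pointwise

theorem half_diff_le {K : Set E3} (hK : IsConvexBody K) :
    volume ((1 / 2 : ℝ) • (K - K)) ≤ volume ((1 / 2 : ℝ) • (interior K - interior K)) := by
  have hc := hK.isCompact
  have hconv := hK.convex
  have hne := hK.interior_nonempty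
  set O := interior K
  have hOo : IsOpen O := isOpen_interior
  have hOc : Convex ℝ O := hconv.interior
  have hKO : K ⊆ closure O := by
    rw [hconv.closure_interior_eq_closure_of_nonempty_interior hne]
    exact subset_closure
  set D := (1 / 2 : ℝ) • (K - K)
  set C := (1 / 2 : ℝ) • (O - O)
  have hDc : Convex ℝ D := (hconv.sub hconv).smul _
  have hCc : Convex ℝ C := (hOc.sub hOc).smul _
  have hCo : IsOpen C := (hOo.sub_right).smul₀ (by norm_num)
  have hCne : C.Nonempty := by
    obtain ⟨x, hx⟩ := hne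
    exact ⟨(1 / 2 : ℝ) • (x - x), Set.smul_mem_smul_set (Set.sub_mem_sub hx hx)⟩
  have hDC : D ⊆ closure C := by
    rintro _ ⟨_, ⟨a, ha, b, hb, rfl⟩, rfl⟩
    have hmap : Continuous fun p : E3 × E3 => (1 / 2 : ℝ) • (p.1 - p.2) := by fun_prop
    have h1 : (a, b) ∈ closure (O ×ˢ O) := by
      rw [closure_prod_eq]
      exact ⟨hKO ha, hKO hb⟩
    have h2 := image_closure_subset_closure_image hmap ⟨_, h1, rfl⟩
    refine closure_mono ?_ h2
    rintro _ ⟨⟨p, q⟩, ⟨hp, hq⟩, rfl⟩
    exact Set.smul_mem_smul_set (Set.sub_mem_sub hp hq)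
  have hI : interior D ⊆ C := by
    have h1 := interior_mono hDC
    rwa [hCc.interior_closure_eq_interior_of_nonempty_interior
      (by rwa [hCo.interior_eq]), hCo.interior_eq] at h1
  have h0 : volume D ≤ volume (interior D) := by
    have h1 := hDc.addHaar_frontier volume
    calc volume D ≤ volume (interior D ∪ frontier D) :=
          measure_mono (fun x hx => by
            rw [← closure_eq_interior_union_frontier]; exact subset_closure hx)
      _ ≤ volume (interior D) + volume (frontier D) := measure_union_le _ _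
      _ = volume (interior D) := by rw [h1, add_zero]
  exact h0.trans (measure_mono hI)

/-- BLOCK U (the recorded upper bound) -/
theorem deltaT_le {K : Set E3} (hK : IsConvexBody K) :
    deltaT K ≤ volume K / volume ((1 / 2 : ℝ) • (K - K)) := by
  have hc := hK.isCompact
  have hconv := hK.convex
  have hne := hK.interior_nonempty
  obtain ⟨ρ, hρ⟩ := hc.isBounded.subset_closedBall (0 : E3)
  have hCo : IsOpen ((1 / 2 : ℝ) • (interior K - interior K)) :=
    (isOpen_interior.sub_right).smul₀ (by norm_num)
  have hCne : ((1 / 2 : ℝ) • (interior K - interior K)).Nonempty := by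
    obtain ⟨x, hx⟩ := hne
    exact ⟨(1 / 2 : ℝ) • (x - x), Set.smul_mem_smul_set (Set.sub_mem_sub hx hx)⟩
  have hdiff : ∀ x ∈ (1 / 2 : ℝ) • (interior K - interior K),
      ∃ a ∈ interior K, ∃ b ∈ interior K, x = (1 / 2 : ℝ) • (a - b) := by
    rintro _ ⟨_, ⟨a, ha, b, hb, rfl⟩, rfl⟩
    exact ⟨a, ha, b, hb, rfl⟩
  have hC0 : volume ((1 / 2 : ℝ) • (interior K - interior K)) ≠ 0 :=
    (hCo.measure_pos volume hCne).ne'
  have hCt : volume ((1 / 2 : ℝ) • (interior K - interior K)) ≠ ⊤ := by
    refine ((measure_mono ?_).trans_lt (measure_closedBall_lt_top (x := (0 : E3)) (r := ρ))).ne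
    intro x hx
    obtain ⟨a, ha, b, hb, rfl⟩ := hdiff x hx
    have h1 := hρ (interior_subset ha)
    have h2 := hρ (interior_subset hb)
    rw [mem_closedBall_zero_iff] at h1 h2 ⊢
    rw [norm_smul]
    have h3 := norm_sub_le a b
    norm_num
    linarith
  unfold deltaT
  refine iSup_le fun S => iSup_le fun hS => ?_
  refine (tDensity_le subset_rfl hconv.interior hdiff hCo.measurableSet hρ hC0 hCt hS).trans ?_
  exact ENNReal.div_le_div_left (half_diff_le hK) _

end Pool.Agent.Helper84.SY
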